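import Pool.Agent.D0H99.OD.Stm6

/-!
Project OD (helper99), module A5: almost all monic polynomials over a finite field have a typical
factorization (from A0, A2, A3, A4).
-/

set_option autoImplicit false

open Polynomial

namespace Pool.Agent.D0H88.OD

open Finset
open Pool.Agent.D0H99.OD

theorem fin_PD (h0 : S_A0) {k : Type} [Field k] [Fintype k] (f : k[X]) (hf : f ≠ 0) :
    (PD f).Finite := by
  classical
  apply Set.Finite.subset (((range (f.natDegree + 1)).biUnion fun D => MO k D).finite_toSet)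
  intro P hP
  rw [Finset.mem_coe, Finset.mem_biUnion]
  refine ⟨P.natDegree, ?_, ((h0 k P.natDegree).1 P).2 ⟨hP.1, rfl⟩⟩
  rw [Finset.mem_range]
  have := natDegree_le_of_dvd hP.2.2 hf
  omega

theorem mem_Dg {k : Type} [Field k] [Fintype k] (f : k[X]) (n0 n : ℕ) :
    n ∈ Dg f n0 ↔ n < f.natDegree + 1 ∧ n0 < n ∧ ∃ P ∈ PD f, P.natDegree = n := by
  simp [Dg]

theorem card_small (h0 : S_A0) {k : Type} [Field k] [Fintype k] (f : k[X]) (hf : f ≠ 0)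
    (n0 n : ℕ) :
    ((Dg f n0).filter fun m => m ≤ n).card ≤ {P ∈ PD f | P.natDegree ≤ n}.ncard := by
  classical
  have hfin : ({P ∈ PD f | P.natDegree ≤ n} : Set k[X]).Finite :=
    (fin_PD h0 f hf).subset (Set.sep_subset _ _)
  have h1 := Set.ncard_image_le (f := fun P : k[X] => P.natDegree) hfin
  refine le_trans ?_ h1
  rw [← Set.ncard_coe_finset]
  apply Set.ncard_le_ncard _ (hfin.image _)
  intro m hm
  rw [Finset.mem_coe, Finset.mem_filter, mem_Dg] at hm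
  obtain ⟨⟨-, -, P, hP, hPm⟩, hmn⟩ := hm
  exact ⟨P, ⟨hP, by rw [hPm]; exact hmn⟩, hPm⟩

theorem card_large {k : Type} [Field k] [Fintype k] (f : k[X]) (hf : f ≠ 0)
    (n0 : ℕ) (hinj : ∀ P ∈ PD f, ∀ P' ∈ PD f, n0 < P.natDegree → P.natDegree = P'.natDegree → P = P') :
    {P ∈ PD f | n0 < P.natDegree}.ncard ≤ (Dg f n0).card := by
  classical
  have h1 : ((fun P : k[X] => P.natDegree) '' {P ∈ PD f | n0 < P.natDegree}).ncard =
      {P ∈ PD f | n0 < P.natDegree}.ncard := by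
    apply Set.InjOn.ncard_image
    intro P hP P' hP' h
    exact hinj P hP.1 P' hP'.1 hP.2 h
  rw [← h1, ← Set.ncard_coe_finset]
  apply Set.ncard_le_ncard _ (Finset.finite_toSet _)
  rintro m ⟨P, hP, rfl⟩
  rw [Finset.mem_coe, mem_Dg]
  refine ⟨?_, hP.2, P, hP.1, rfl⟩
  have := natDegree_le_of_dvd hP.1.2.2 hf
  show P.natDegree < _
  omega

/-- Markov -/
theorem markov {α : Type*} (M : Finset α) (g : α → ℝ) (hg : ∀ f ∈ M, 0 ≤ g f) (c : ℝ) :
    ({f ∈ (M : Set α) | c ≤ g f}.ncard : ℝ) * c ≤ ∑ f ∈ M, g f := by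
  classical
  have h1 : ({f ∈ (M : Set α) | c ≤ g f} : Set α) = ↑(M.filter fun f => c ≤ g f) := by
    ext f; simp
  rw [h1, Set.ncard_coe_finset, ← nsmul_eq_mul]
  calc (M.filter fun f => c ≤ g f).card • c ≤ ∑ f ∈ M.filter (fun f => c ≤ g f), g f := by
        apply Finset.card_nsmul_le_sum
        intro f hf
        exact (Finset.mem_filter.1 hf).2
    _ ≤ ∑ f ∈ M, g f := Finset.sum_le_sum_of_subset_of_nonneg (Finset.filter_subset _ _)
        fun f hf _ => hg f hf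

/-- the choice of `s0` -/
theorem ex_s0 (X : ℝ) (hX : 0 ≤ X) : ∃ s0 : ℕ, X ≤ (2 : ℝ) ^ s0 ∧ (2 : ℝ) ^ s0 ≤ 2 * X + 2 := by
  classical
  have hex : ∃ s : ℕ, X ≤ (2 : ℝ) ^ s := by
    obtain ⟨s, hs⟩ := pow_unbounded_of_one_lt X (by norm_num : (1 : ℝ) < 2)
    exact ⟨s, hs.le⟩
  refine ⟨Nat.find hex, Nat.find_spec hex, ?_⟩
  rcases Nat.eq_zero_or_pos (Nat.find hex) with h | h
  · rw [h]; simp; linarith
  · have h2 := Nat.find_min hex (m := Nat.find hex - 1) (by omega)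
    push Not at h2
    have h3 : (2 : ℝ) ^ Nat.find hex = 2 ^ (Nat.find hex - 1) * 2 := by
      rw [← pow_succ]; congr 1; omega
    rw [h3]; linarith

/-- the tails -/
theorem tails (Q : ℝ) (hQ : 1 < Q) (δ : ℝ) (hδ : 0 < δ) : ∃ M : ℕ, ∀ t : Finset ℕ,
    (∀ n ∈ t, M < n) → ∑ n ∈ t, (n : ℝ) ^ 7 / Q ^ n ≤ δ := by
  have h1 : Summable fun n : ℕ => (n : ℝ) ^ 7 * (1 / Q) ^ n := by
    apply summable_pow_mul_geometric_of_norm_lt_one
    rw [Real.norm_eq_abs, abs_of_pos (by positivity), div_lt_one (by linarith)]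
    exact hQ
  rw [summable_iff_vanishing_norm] at h1
  obtain ⟨s, hs⟩ := h1 δ hδ
  refine ⟨s.sup id, fun t ht => ?_⟩
  have h2 := hs t (by
    rw [Finset.disjoint_left]
    intro n hn hns
    have h3 := ht n hn
    have h4 : n ≤ s.sup id := Finset.le_sup (f := id) hns
    omega)
  have h3 : ∑ n ∈ t, (n : ℝ) ^ 7 / Q ^ n = ∑ n ∈ t, (n : ℝ) ^ 7 * (1 / Q) ^ n := by
    apply Finset.sum_congr rfl
    intro n _
    rw [one_div, inv_pow]; rfl
  rw [h3]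
  exact (le_abs_self _).trans h2.le

/-- the bound of the constant -/
theorem cst_le (m s0 n0 : ℕ) (η : ℝ) (hη : 0 < η) (hn0 : 1 ≤ n0)
    (h : (2 : ℝ) ^ s0 ≤ 2 * (12 * ((n0 : ℝ) + 1) / η) + 2) :
    (2 : ℝ) ^ (m + s0) * (20 + 20 * ((m + s0 : ℕ) : ℝ) * (n0 : ℝ)) ≤
      (2 : ℝ) ^ m * (48 / η + 2) * (20 + 20 * (m + (48 / η + 2))) * (n0 : ℝ) ^ 3 := by
  have hn : (1 : ℝ) ≤ n0 := by exact_mod_cast hn0
  set B : ℝ := 48 / η + 2 with hB
  have hBpos : 0 < B := by positivity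
  have h1 : (2 : ℝ) ^ s0 ≤ B * n0 := by
    refine h.trans ?_
    have h2 : 2 * (12 * ((n0 : ℝ) + 1) / η) = 24 / η * (n0 + 1) := by ring
    have h3 : 48 / η = 2 * (24 / η) := by ring
    rw [h2, hB, h3]
    have h4 : 0 < 24 / η := by positivity
    nlinarith [mul_nonneg h4.le (sub_nonneg.2 hn)]
  have h2 : (s0 : ℝ) ≤ B * n0 := by
    refine le_trans ?_ h1
    have := Nat.lt_two_pow_self (n := s0)
    exact_mod_cast this.le
  have h3 : 20 + 20 * ((m + s0 : ℕ) : ℝ) * (n0 : ℝ) ≤ (20 + 20 * (m + B)) * (n0 : ℝ) ^ 2 := by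
    push_cast
    have h4 : (20 : ℝ) ≤ 20 * (n0 : ℝ) ^ 2 := by nlinarith
    have h5 : (m : ℝ) * n0 ≤ m * (n0 : ℝ) ^ 2 := by
      apply mul_le_mul_of_nonneg_left _ (by positivity)
      nlinarith
    have h6 : (s0 : ℝ) * n0 ≤ B * (n0 : ℝ) ^ 2 := by
      have := mul_le_mul_of_nonneg_right h2 (by positivity : (0 : ℝ) ≤ n0)
      nlinarith
    nlinarith
  calc (2 : ℝ) ^ (m + s0) * (20 + 20 * ((m + s0 : ℕ) : ℝ) * (n0 : ℝ))
      = (2 : ℝ) ^ m * (2 : ℝ) ^ s0 * (20 + 20 * ((m + s0 : ℕ) : ℝ) * (n0 : ℝ)) := by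
        rw [pow_add]
    _ ≤ (2 : ℝ) ^ m * (B * n0) * ((20 + 20 * (m + B)) * (n0 : ℝ) ^ 2) := by
        gcongr
    _ = _ := by ring

/-- the sum of the weights -/
theorem sum_wt (h0 : S_A0) (h2 : S_A2) {k : Type} [Field k] [Fintype k] (hk : ringChar k ≠ 2)
    (n0 D : ℕ) (Q Cst K : ℝ) (hQ : 1 < Q) (hC0 : 0 ≤ Cst) (hn0 : 1 ≤ n0)
    (hC : Cst ≤ K * (n0 : ℝ) ^ 3) (δ : ℝ)
    (ht : ∀ t : Finset ℕ, (∀ n ∈ t, n0 < n) → ∑ n ∈ t, (n : ℝ) ^ 7 / Q ^ n ≤ δ) (hK : 0 ≤ K) :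
    ∑ f ∈ MO k D, wt Q Cst (Dg f n0) ≤ 6 * K * δ * (Fintype.card k : ℝ) ^ D := by
  classical
  have hQ0 : 0 < Q := by linarith
  have h3 : ∀ f ∈ MO k D, wt Q Cst (Dg f n0) ≤
      ∑ n ∈ Finset.Ioc n0 D, (2 : ℝ) ^ {P ∈ PD f | P.natDegree ≤ n}.ncard *
        (Cst * (n : ℝ) ^ 3 / Q ^ n) := by
    intro f hf
    obtain ⟨hm, hd⟩ := ((h0 k D).1 f).1 hf
    unfold wt
    calc ∑ n ∈ Dg f n0, (2 : ℝ) ^ ((Dg f n0).filter fun m => m ≤ n).card *
            (Cst * (n : ℝ) ^ 3 / Q ^ n)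
        ≤ ∑ n ∈ Dg f n0, (2 : ℝ) ^ {P ∈ PD f | P.natDegree ≤ n}.ncard *
            (Cst * (n : ℝ) ^ 3 / Q ^ n) := by
          apply Finset.sum_le_sum
          intro n _
          apply mul_le_mul_of_nonneg_right _ (by positivity)
          exact pow_le_pow_right₀ (by norm_num) (card_small h0 f hm.ne_zero n0 n)
      _ ≤ _ := by
          apply Finset.sum_le_sum_of_subset_of_nonneg
          · intro n hn
            rw [mem_Dg] at hn
            rw [Finset.mem_Ioc]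
            omega
          · intro n _ _
            positivity
  calc ∑ f ∈ MO k D, wt Q Cst (Dg f n0)
      ≤ ∑ f ∈ MO k D, ∑ n ∈ Finset.Ioc n0 D, (2 : ℝ) ^ {P ∈ PD f | P.natDegree ≤ n}.ncard *
        (Cst * (n : ℝ) ^ 3 / Q ^ n) := Finset.sum_le_sum h3
    _ = ∑ n ∈ Finset.Ioc n0 D, (∑ f ∈ MO k D, (2 : ℝ) ^ {P ∈ PD f | P.natDegree ≤ n}.ncard) *
        (Cst * (n : ℝ) ^ 3 / Q ^ n) := by
        rw [Finset.sum_comm]
        apply Finset.sum_congr rfl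
        intro n _
        rw [Finset.sum_mul]
    _ ≤ ∑ n ∈ Finset.Ioc n0 D, (3 * ((n : ℝ) + 1) * (Fintype.card k : ℝ) ^ D) *
        (Cst * (n : ℝ) ^ 3 / Q ^ n) := by
        apply Finset.sum_le_sum
        intro n _
        exact mul_le_mul_of_nonneg_right (h2 k hk n D) (by positivity)
    _ ≤ ∑ n ∈ Finset.Ioc n0 D, (6 * K * (Fintype.card k : ℝ) ^ D) * ((n : ℝ) ^ 7 / Q ^ n) := by
        apply Finset.sum_le_sum
        intro n hn
        rw [Finset.mem_Ioc] at hn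
        have hn1 : (1 : ℝ) ≤ n := by exact_mod_cast (show 1 ≤ n by omega)
        have hnn : (n0 : ℝ) ≤ n := by exact_mod_cast (show n0 ≤ n by omega)
        have h4 : Cst ≤ K * (n : ℝ) ^ 3 :=
          hC.trans (mul_le_mul_of_nonneg_left (pow_le_pow_left₀ (by positivity) hnn 3) hK)
        have h5 : 3 * ((n : ℝ) + 1) ≤ 6 * n := by linarith
        calc (3 * ((n : ℝ) + 1) * (Fintype.card k : ℝ) ^ D) * (Cst * (n : ℝ) ^ 3 / Q ^ n)
            ≤ (6 * n * (Fintype.card k : ℝ) ^ D) * ((K * (n : ℝ) ^ 3) * (n : ℝ) ^ 3 / Q ^ n) := by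
              gcongr
          _ = _ := by ring
    _ = (6 * K * (Fintype.card k : ℝ) ^ D) * ∑ n ∈ Finset.Ioc n0 D, ((n : ℝ) ^ 7 / Q ^ n) := by
        rw [Finset.mul_sum]
    _ ≤ (6 * K * (Fintype.card k : ℝ) ^ D) * δ := by
        apply mul_le_mul_of_nonneg_left _ (by positivity)
        exact ht _ fun n hn => (Finset.mem_Ioc.1 hn).1
    _ = _ := by ring

theorem t_A5 : S_A5 := by
  intro h0 h2 h3 h4 k _ _ hk N m ε η hε hη rf
  classical
  have hq : (1 : ℝ) < (Fintype.card k : ℝ) := by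
    exact_mod_cast Fintype.one_lt_card (α := k)
  have hQ : 1 < Real.sqrt (Fintype.card k) := by
    rw [Real.lt_sqrt (by norm_num)]; simpa using hq
  set Q := Real.sqrt (Fintype.card k) with hQdef
  set K : ℝ := (2 : ℝ) ^ m * (48 / η + 2) * (20 + 20 * (m + (48 / η + 2))) with hKdef
  have hK : 0 < K := by positivity
  set δ : ℝ := ε * η / (24 * K) with hδdef
  have hδ : 0 < δ := by positivity
  obtain ⟨M1, hM1⟩ := tails Q hQ δ hδ
  obtain ⟨M2, hM2⟩ := pow_unbounded_of_one_lt (4 : ℝ) hQ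
  obtain ⟨M3, hM3⟩ := exists_nat_ge (4 / η)
  set n0 : ℕ := N + M1 + M2 + M3 + 1 with hn0def
  have hn0 : 1 ≤ n0 := by omega
  obtain ⟨s0, hs1, hs2⟩ := ex_s0 (12 * ((n0 : ℝ) + 1) / η) (by positivity)
  obtain ⟨D0, hD0⟩ := h4 k hk n0 (rf s0) (η / 4) (by positivity)
  refine ⟨n0, s0, D0, by omega, ?_, ?_⟩
  · intro n hn
    exact hM2.le.trans (pow_le_pow_right₀ hQ.le (by omega))
  intro D hD
  set Cst : ℝ := (2 : ℝ) ^ (m + s0) * (20 + 20 * ((m + s0 : ℕ) : ℝ) * (n0 : ℝ)) with hCst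
  have hqD : (0 : ℝ) < (Fintype.card k : ℝ) ^ D := by positivity
  set S1 : Set k[X] := {f ∈ (MO k D : Set k[X]) |
    (2 : ℝ) ^ s0 ≤ (2 : ℝ) ^ {P ∈ PD f | P.natDegree ≤ n0}.ncard} with hS1
  set S2 : Set k[X] := {f ∈ (MO k D : Set k[X]) | ∃ P ∈ PD f, ∃ P' ∈ PD f, P ≠ P' ∧
    n0 < P.natDegree ∧ P.natDegree = P'.natDegree} with hS2
  set S3 : Set k[X] := {f ∈ (MO k D : Set k[X]) |
    {P ∈ PD f | n0 < P.natDegree}.ncard < rf s0} with hS3
  set S4 : Set k[X] := {f ∈ (MO k D : Set k[X]) | ε ≤ wt Q Cst (Dg f n0)} with hS4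
  have hsub : {f ∈ (MO k D : Set k[X]) | ¬ Typ f n0 s0 (rf s0) Q Cst ε} ⊆
      S1 ∪ S2 ∪ (S3 ∪ S4) := by
    rintro f ⟨hf, hnt⟩
    have hf' : f ∈ MO k D := hf
    obtain ⟨hm, hd⟩ := ((h0 k D).1 f).1 hf'
    by_contra hcon
    simp only [Set.mem_union, not_or] at hcon
    obtain ⟨⟨c1, c2⟩, c3, c4⟩ := hcon
    apply hnt
    have d2 : ∀ P ∈ PD f, ∀ P' ∈ PD f, n0 < P.natDegree → P.natDegree = P'.natDegree → P = P' := by
      intro P hP P' hP' hlt heq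
      by_contra hne
      exact c2 ⟨hf, P, hP, P', hP', hne, hlt, heq⟩
    refine ⟨?_, d2, ?_, ?_⟩
    · by_contra hc
      push Not at hc
      exact c1 ⟨hf, pow_le_pow_right₀ (by norm_num) hc.le⟩
    · refine le_trans ?_ (card_large f hm.ne_zero n0 d2)
      by_contra hc
      push Not at hc
      exact c3 ⟨hf, hc⟩
    · by_contra hc
      push Not at hc
      exact c4 ⟨hf, hc.le⟩
  have hfin : (S1 ∪ S2 ∪ (S3 ∪ S4)).Finite := by
    apply (MO k D).finite_toSet.subset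
    rintro f ((h | h) | (h | h)) <;> exact h.1
  have b1 : (S1.ncard : ℝ) ≤ η / 4 * (Fintype.card k : ℝ) ^ D := by
    have e1 := markov (MO k D) (fun f => (2 : ℝ) ^ {P ∈ PD f | P.natDegree ≤ n0}.ncard)
      (fun f _ => by positivity) ((2 : ℝ) ^ s0)
    have e2 := h2 k hk n0 D
    have e3 : (S1.ncard : ℝ) * (12 * ((n0 : ℝ) + 1) / η) ≤
        3 * ((n0 : ℝ) + 1) * (Fintype.card k : ℝ) ^ D :=
      (mul_le_mul_of_nonneg_left hs1 (by positivity)).trans (e1.trans e2)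
    have e4 : (0 : ℝ) < 12 * ((n0 : ℝ) + 1) / η := by positivity
    rw [← le_div_iff₀ e4] at e3
    refine e3.trans (le_of_eq ?_)
    field_simp
    ring
  have b2 : (S2.ncard : ℝ) ≤ η / 4 * (Fintype.card k : ℝ) ^ D := by
    refine (h3 k hk n0 D hn0).trans ?_
    have e1 : 4 / η ≤ (n0 : ℝ) := hM3.trans (by exact_mod_cast (by omega : M3 ≤ n0))
    have e2 : (0 : ℝ) < n0 := by exact_mod_cast hn0
    rw [div_le_iff₀ e2]
    have e3 : 1 ≤ η / 4 * n0 := by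
      rw [div_le_iff₀ hη] at e1
      linarith
    nlinarith
  have b3 : (S3.ncard : ℝ) ≤ η / 4 * (Fintype.card k : ℝ) ^ D := hD0 D hD
  have b4 : (S4.ncard : ℝ) ≤ η / 4 * (Fintype.card k : ℝ) ^ D := by
    have hC0 : 0 ≤ Cst := by positivity
    have e1 := markov (MO k D) (fun f => wt Q Cst (Dg f n0))
      (fun f _ => by unfold wt; positivity) ε
    have e2 := sum_wt h0 h2 hk n0 D Q Cst K hQ hC0 hn0 (cst_le m s0 n0 η hη hn0 hs2) δ
      (fun t ht => hM1 t fun n hn => by have := ht n hn; omega) hK.le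
    have e3 : (S4.ncard : ℝ) * ε ≤ 6 * K * δ * (Fintype.card k : ℝ) ^ D := e1.trans e2
    rw [← le_div_iff₀ hε] at e3
    refine e3.trans (le_of_eq ?_)
    rw [hδdef]
    field_simp
    ring
  calc (({f ∈ (MO k D : Set k[X]) | ¬ Typ f n0 s0 (rf s0) Q Cst ε}.ncard : ℕ) : ℝ)
      ≤ ((S1 ∪ S2 ∪ (S3 ∪ S4)).ncard : ℝ) := by
        exact_mod_cast Set.ncard_le_ncard hsub hfin
    _ ≤ ((S1.ncard + S2.ncard + (S3.ncard + S4.ncard) : ℕ) : ℝ) := by
        exact_mod_cast (Set.ncard_union_le _ _).trans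
          (add_le_add (Set.ncard_union_le _ _) (Set.ncard_union_le _ _))
    _ ≤ η * (Fintype.card k : ℝ) ^ D := by
        push_cast
        linarith

end Pool.Agent.D0H88.OD
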